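import Pool.Agent.H169Z.QC.Main

set_option autoImplicit false

namespace Pool.Agent.Results.MP_f2eb3d_co.WidthOne

open Pool.Agent.H169Z.QC

/-- In every dimension `n` (in particular every even one), an `n`-dimensional lattice polytope
whose rational codegree exceeds `(n + 1) / 2` has lattice width one. -/
theorem result (n : ℕ) (P : Set (Fin n → ℝ)) (hP : IsLatticePolytope P)
    (m : ℕ) (a : Fin m → Fin n → ℤ) (b : Fin m → ℤ) (h : IsFacetDescription P a b)
    (hμ : ((n : ℝ) + 1) / 2 < qCodegree a b) : LatticeWidthOne P :=
  width_one hP h hμ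

end Pool.Agent.Results.MP_f2eb3d_co.WidthOne
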